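import Mathlib

/-!
# Chow polynomials of simplicial posets need not be real-rooted

The face poset (with the empty face) of the disjoint union of two triangles is a finite graded
simplicial poset of rank `3` whose augmented Chow polynomial
`H^aug = 1 + 15 x + 27 x^2 + 15 x^3 + x^4` has a non-real root.
-/

set_option autoImplicit false
set_option maxRecDepth 100000

open Polynomial

namespace Pool.Agent.Results.MP_308f9e_co.TwoTriangles

/-- `P` is a graded simplicial poset of rank `n` with rank function `rk`: every interval `[⊥, x]` is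
isomorphic to the Boolean lattice of the subsets of a set with `rk x` elements, and `rk m = n` for
every maximal element `m`. -/
structure IsSimplicial {P : Type} [PartialOrder P] [OrderBot P] (n : ℕ) (rk : P → ℕ) : Prop where
  boolean : ∀ x : P, Nonempty (Set.Icc (⊥ : P) x ≃o Finset (Fin (rk x)))
  maximal : ∀ m : P, IsMax m → rk m = n

/-- The flag `f`-vector for a set `T` of ranks, `T ⊆ {1, ..., n}`: the number of chains whose set of
ranks is exactly `T`; such a chain is a strictly increasing family `(c t)`, `t ∈ T`, with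
`rk (c t) = t`. -/
noncomputable def flagF {P : Type} [PartialOrder P] (rk : P → ℕ) (T : Finset ℕ) : ℕ :=
  Nat.card {c : T → P // (∀ t, rk (c t) = t) ∧ ∀ s t : T, s < t → c s < c t}

/-- The flag `h`-vector. -/
noncomputable def flagH {P : Type} [PartialOrder P] (rk : P → ℕ) (S : Finset ℕ) : ℤ :=
  ∑ T ∈ S.powerset, (-1) ^ (S \ T).card * (flagF rk T : ℤ)

/-- The isolated subsets of `{1, ..., n}`: those which contain no two consecutive integers. -/
def isolated (n : ℕ) : Finset (Finset ℕ) :=
  (Finset.Icc 1 n).powerset.filter fun S => ∀ i ∈ S, i + 1 ∉ S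

/-- The augmented Chow polynomial of `P` with a top element adjoined, `P` of rank `n`. -/
noncomputable def chowAug {P : Type} [PartialOrder P] (n : ℕ) (rk : P → ℕ) : ℤ[X] :=
  ∑ S ∈ isolated n, C (flagH rk S) * X ^ S.card * (1 + X) ^ (n + 1 - 2 * S.card)

/-- The faces of the disjoint union of two triangles, as sets of vertices. -/
abbrev Face : Type := {s : Finset (Fin 6) // s ⊆ {0, 1, 2} ∨ s ⊆ {3, 4, 5}}

instance : OrderBot Face where
  bot := ⟨∅, Or.inl (Finset.empty_subset _)⟩
  bot_le x := Finset.empty_subset x.1

/-- The rank of a face is its number of vertices. -/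
def rk (x : Face) : ℕ := x.1.card

theorem face_boolean (x : Face) : Nonempty (Set.Icc (⊥ : Face) x ≃o Finset (Fin (rk x))) := by
  change Nonempty (Set.Icc (⊥ : Face) x ≃o Finset (Fin x.1.card))
  have hlow : ∀ u : Finset x.1, (u.map (Function.Embedding.subtype _) : Finset (Fin 6)) ⊆ x.1 := by
    intro u a ha
    simp only [Finset.mem_map, Function.Embedding.coe_subtype] at ha
    obtain ⟨b, _, rfl⟩ := ha
    exact b.2
  let e1 : Set.Icc (⊥ : Face) x ≃o Finset x.1 :=
    { toFun := fun t => t.1.1.subtype (· ∈ x.1)
      invFun := fun u => ⟨⟨u.map (Function.Embedding.subtype _),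
        x.2.imp (fun h => (hlow u).trans h) (fun h => (hlow u).trans h)⟩,
          Finset.empty_subset _, hlow u⟩
      left_inv := by
        intro t
        apply Subtype.ext
        apply Subtype.ext
        simp only [Finset.subtype_map]
        rw [Finset.filter_true_of_mem]
        intro a ha
        exact t.2.2 ha
      right_inv := by
        intro u
        ext a
        simp
      map_rel_iff' := by
        intro s t
        constructor
        · intro h a ha
          have hax : a ∈ x.1 := s.2.2 ha
          have : (⟨a, hax⟩ : x.1) ∈ s.1.1.subtype (· ∈ x.1) := by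
            rw [Finset.mem_subtype]
            exact ha
          have := h this
          rw [Equiv.coe_fn_mk, Finset.mem_subtype] at this
          exact this
        · intro h a ha
          rw [Equiv.coe_fn_mk, Finset.mem_subtype] at ha ⊢
          exact h ha }
  let e2 : Finset x.1 ≃o Finset (Fin x.1.card) :=
    { toEquiv := x.1.equivFin.finsetCongr
      map_rel_iff' := by
        intro s t
        exact Finset.map_subset_map }
  exact ⟨e1.trans e2⟩

theorem face_maximal (m : Face) (hm : IsMax m) : rk m = 3 := by
  rcases m.2 with h | h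
  · have h1 : m ≤ (⟨{0, 1, 2}, Or.inl (Finset.Subset.refl _)⟩ : Face) := h
    have h2 : m.1 = {0, 1, 2} := le_antisymm h (hm h1)
    unfold rk
    rw [h2]
    decide
  · have h1 : m ≤ (⟨{3, 4, 5}, Or.inr (Finset.Subset.refl _)⟩ : Face) := h
    have h2 : m.1 = {3, 4, 5} := le_antisymm h (hm h1)
    unfold rk
    rw [h2]
    decide

theorem flagF_eq (T : Finset ℕ) : flagF rk T =
    Fintype.card {c : T → Face // (∀ t, rk (c t) = t) ∧ ∀ s t : T, s < t → c s < c t} := by
  unfold flagF
  rw [Nat.card_eq_fintype_card]

theorem f0 : flagF rk ∅ = 1 := by rw [flagF_eq]; decide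
theorem f1 : flagF rk {1} = 6 := by rw [flagF_eq]; decide
theorem f2 : flagF rk {2} = 6 := by rw [flagF_eq]; decide
theorem f3 : flagF rk {3} = 2 := by rw [flagF_eq]; decide
theorem f13 : flagF rk {1, 3} = 6 := by rw [flagF_eq]; decide

theorem chowAug_eq : chowAug 3 rk = X ^ 4 + 15 * X ^ 3 + 27 * X ^ 2 + 15 * X + 1 := by
  have h0 : flagH rk ∅ = 1 := by simp [flagH, f0]
  have h1 : flagH rk {1} = 5 := by
    have : ({1} : Finset ℕ).powerset = {∅, {1}} := by decide
    rw [flagH, this, Finset.sum_pair (by decide), f0, f1]
    decide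
  have h2 : flagH rk {2} = 5 := by
    have : ({2} : Finset ℕ).powerset = {∅, {2}} := by decide
    rw [flagH, this, Finset.sum_pair (by decide), f0, f2]
    decide
  have h3 : flagH rk {3} = 1 := by
    have : ({3} : Finset ℕ).powerset = {∅, {3}} := by decide
    rw [flagH, this, Finset.sum_pair (by decide), f0, f3]
    decide
  have h13 : flagH rk {1, 3} = -1 := by
    have : ({1, 3} : Finset ℕ).powerset = {∅, {1}, {3}, {1, 3}} := by decide
    rw [flagH, this, Finset.sum_insert (by decide), Finset.sum_insert (by decide),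
      Finset.sum_pair (by decide), f0, f1, f3, f13]
    decide
  have hi : isolated 3 = {∅, {1}, {2}, {3}, {1, 3}} := by decide
  rw [chowAug, hi, Finset.sum_insert (by decide), Finset.sum_insert (by decide),
    Finset.sum_insert (by decide), Finset.sum_pair (by decide), h0, h1, h2, h3, h13]
  have c13 : ({1, 3} : Finset ℕ).card = 2 := by decide
  simp only [Finset.card_empty, Finset.card_singleton, c13]
  norm_num
  ring

/-- The face poset of two disjoint triangles is a finite graded simplicial poset of rank `3`, and its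
augmented Chow polynomial has a non-real complex root. -/
theorem result : Finite Face ∧ IsSimplicial 3 rk ∧
    chowAug 3 rk = X ^ 4 + 15 * X ^ 3 + 27 * X ^ 2 + 15 * X + 1 ∧
    ∃ z : ℂ, aeval z (chowAug 3 rk) = 0 ∧ z.im ≠ 0 := by
  refine ⟨inferInstance, ⟨face_boolean, face_maximal⟩, chowAug_eq, ?_⟩
  set w : ℝ := (-15 + 5 * √5) / 2 with hw
  have h5 : √5 ^ 2 = 5 := Real.sq_sqrt (by norm_num)
  have h5a : 0 ≤ √5 := Real.sqrt_nonneg 5
  have h5b : 2.2 < √5 := by
    apply Real.lt_sqrt_of_sq_lt
    norm_num
  have h5c : √5 < 3 := by nlinarith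
  have hw0 : w ^ 2 + 15 * w + 25 = 0 := by
    rw [hw]
    nlinarith
  have hw1 : -2 < w := by rw [hw]; linarith
  have hw2 : w < 2 := by rw [hw]; linarith
  have hpos : 0 < 1 - w ^ 2 / 4 := by nlinarith
  refine ⟨⟨w / 2, √(1 - w ^ 2 / 4)⟩, ?_, ?_⟩
  · set z : ℂ := ⟨w / 2, √(1 - w ^ 2 / 4)⟩ with hz
    have hsq : √(1 - w ^ 2 / 4) ^ 2 = 1 - w ^ 2 / 4 := Real.sq_sqrt hpos.le
    have hz2 : z ^ 2 = w * z - 1 := by
      apply Complex.ext
      · rw [sq, Complex.mul_re, Complex.sub_re, Complex.mul_re, hz]
        simp only [Complex.ofReal_re, Complex.ofReal_im, Complex.one_re]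
        nlinarith
      · rw [sq, Complex.mul_im, Complex.sub_im, Complex.mul_im, hz]
        simp only [Complex.ofReal_re, Complex.ofReal_im, Complex.one_im]
        ring
    have hwc : (w : ℂ) ^ 2 + 15 * w + 25 = 0 := by exact_mod_cast hw0
    rw [chowAug_eq]
    simp only [map_add, map_mul, map_pow, aeval_X, map_one, map_ofNat]
    linear_combination (z ^ 2 + w * z + 15 * z + (w ^ 2 + 15 * w + 26)) * hz2 +
      (w * z - 1) * hwc
  · exact (Real.sqrt_pos.2 hpos).ne'

end Pool.Agent.Results.MP_308f9e_co.TwoTriangles
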